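import Mathlib

set_option autoImplicit false

namespace Pool.Agent.Results.MP_734b60_nt.PrimeCase

open Polynomial

theorem coeff_g (p : ℕ) [hp : Fact p.Prime] (j : ℕ) :
    ((cyclotomic p ℤ).comp (X + 1)).coeff j = (p.choose (j + 1) : ℤ) := by
  have h : X * (cyclotomic p ℤ).comp (X + 1) = (X + 1) ^ p - 1 := by
    have := congrArg (fun q : ℤ[X] => q.comp (X + 1)) (cyclotomic_prime_mul_X_sub_one ℤ p)
    simp only [mul_comp, sub_comp, X_comp, one_comp, pow_comp, add_sub_cancel_right] at this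
    rw [mul_comm]; exact this
  have h2 := congrArg (fun q : ℤ[X] => q.coeff (j + 1)) h
  simp only [coeff_X_mul, coeff_sub, coeff_X_add_one_pow, coeff_one] at h2
  simpa using h2

theorem coeff_f (p : ℕ) [hp : Fact p.Prime] (j : ℕ) :
    ((derivative (cyclotomic p ℤ)).comp (X + 1)).coeff j
      = (p.choose (j + 2) : ℤ) * ((j : ℤ) + 1) := by
  have h : (derivative (cyclotomic p ℤ)).comp (X + 1)
      = derivative ((cyclotomic p ℤ).comp (X + 1)) := by
    rw [derivative_comp]; simp
  rw [h, coeff_derivative, coeff_g]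

theorem irr_int (k : ℕ) [hp : Fact (k + 3).Prime] :
    Irreducible ((derivative (cyclotomic (k + 3) ℤ)).comp (X + 1)) ∧
      ((derivative (cyclotomic (k + 3) ℤ)).comp (X + 1)).IsPrimitive := by
  set f := (derivative (cyclotomic (k + 3) ℤ)).comp (X + 1) with hf
  have hc : ∀ j, f.coeff j = ((k + 3).choose (j + 2) : ℤ) * ((j : ℤ) + 1) := coeff_f (k + 3)
  have htop : f.coeff (k + 1) = (k : ℤ) + 2 := by
    rw [hc, show k + 1 + 2 = k + 3 from rfl, Nat.choose_self]; push_cast; ring
  have hdeg : f.natDegree = k + 1 := by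
    apply le_antisymm
    · rw [natDegree_le_iff_coeff_eq_zero]
      intro N hN
      rw [hc, Nat.choose_eq_zero_of_lt (by omega)]; simp
    · apply le_natDegree_of_ne_zero
      rw [htop]; positivity
  have hprim : f.IsPrimitive := by
    intro r hr
    have h1 : r ∣ f.eval (-1) := by
      simpa using eval_dvd (x := -1) hr
    have h2 : f.eval (-1) = 1 := by
      rw [hf, eval_comp]
      simp only [eval_add, eval_X, eval_one, neg_add_cancel]
      rw [← coeff_zero_eq_eval_zero, coeff_derivative, cyclotomic_prime, finset_sum_coeff]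
      simp [coeff_X_pow]
    rw [h2] at h1
    exact isUnit_of_dvd_one h1
  refine ⟨?_, hprim⟩
  have hP : (Ideal.span {((k + 3 : ℕ) : ℤ)}).IsPrime :=
    (Ideal.span_singleton_prime (by positivity)).2 (Nat.prime_iff_prime_int.1 hp.out)
  refine IsEisensteinAt.irreducible (𝓟 := Ideal.span {((k + 3 : ℕ) : ℤ)}) ⟨?_, ?_, ?_⟩ hP hprim
    (by omega)
  · rw [leadingCoeff, hdeg, htop, Ideal.mem_span_singleton]
    intro h
    have := Int.le_of_dvd (by positivity) h
    push_cast at this; omega
  · intro n hn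
    rw [hc, Ideal.mem_span_singleton]
    apply Dvd.dvd.mul_right
    exact Int.natCast_dvd_natCast.2 (hp.out.dvd_choose_self (by omega) (by omega))
  · rw [hc, Ideal.span_singleton_pow, Ideal.mem_span_singleton]
    intro h
    simp only [Nat.cast_zero, zero_add, mul_one] at h
    have h1 : (k + 3) ^ 2 ∣ (k + 3).choose 2 := by exact_mod_cast h
    have h2 : 0 < (k + 3).choose 2 := Nat.choose_pos (by omega)
    have h3 := Nat.le_of_dvd h2 h1
    rw [Nat.choose_two_right] at h3
    have h4 : (k + 3) * (k + 3 - 1) / 2 ≤ (k + 3) * (k + 3 - 1) := Nat.div_le_self _ _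
    have h5 : k + 3 - 1 = k + 2 := rfl
    rw [h5] at h3 h4
    nlinarith

theorem irr_rat (k : ℕ) [hp : Fact (k + 3).Prime] :
    Irreducible (derivative (cyclotomic (k + 3) ℚ)) := by
  obtain ⟨h1, h2⟩ := irr_int k
  have h3 := (IsPrimitive.Int.irreducible_iff_irreducible_map_cast h2).1 h1
  rw [map_comp, ← derivative_map, map_cyclotomic_int] at h3
  have h4 : (algEquivAevalXAddC (1 : ℚ)) (derivative (cyclotomic (k + 3) ℚ))
      = (derivative (cyclotomic (k + 3) ℚ)).comp (map (Int.castRingHom ℚ) (X + 1)) := by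
    simp [algEquivAevalXAddC, algEquivOfCompEqX, comp_eq_aeval]
  rw [← h4] at h3
  exact (MulEquiv.irreducible_iff (algEquivAevalXAddC (1 : ℚ))).1 h3

theorem cyc_two_mul (p : ℕ) [hp : Fact p.Prime] (h2 : p ≠ 2) :
    cyclotomic (2 * p) ℚ = (cyclotomic p ℚ).comp (-X) := by
  have hodd : Odd p := hp.out.odd_of_ne_two h2
  have hnd : ¬ 2 ∣ p := by
    rcases hodd with ⟨t, ht⟩; omega
  have e1 := cyclotomic_expand_eq_cyclotomic_mul Nat.prime_two hnd ℚ
  have e0 := cyclotomic_prime_mul_X_sub_one ℚ p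
  have e2 := congrArg (expand ℚ 2) e0
  simp only [map_mul, map_sub, expand_X, map_one, map_pow] at e2
  have e3 := congrArg (fun q : ℚ[X] => q.comp (-X)) e0
  simp only [mul_comp, sub_comp, X_comp, one_comp, pow_comp, hodd.neg_pow] at e3
  rw [e1, mul_comm p 2] at e2
  have hne : cyclotomic p ℚ * (X ^ 2 - 1) ≠ 0 := by
    apply mul_ne_zero (cyclotomic_ne_zero p ℚ)
    exact X_pow_sub_C_ne_zero (by norm_num) (1 : ℚ)
  apply mul_right_cancel₀ hne
  have e4 : ((X : ℚ[X]) ^ 2) ^ p = X ^ p * X ^ p := by rw [← pow_mul, two_mul, pow_add]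
  rw [e4] at e2
  linear_combination e2 + (cyclotomic p ℚ * (X - 1)) * e3 - (X ^ p + 1) * e0

/-- For every odd prime `p`, the derivatives of `Φ_p` and `Φ_{2p}` are irreducible over `ℚ`. -/
theorem result : ∀ p : ℕ, p.Prime → p ≠ 2 →
    Irreducible (derivative (cyclotomic p ℚ)) ∧ Irreducible (derivative (cyclotomic (2 * p) ℚ)) := by
  intro p hp h2
  have := hp.two_le
  obtain ⟨k, rfl⟩ : ∃ k, p = k + 3 := ⟨p - 3, by omega⟩
  haveI := Fact.mk hp
  have h1 := irr_rat k
  refine ⟨h1, ?_⟩
  rw [cyc_two_mul _ h2, derivative_comp]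
  have h4 : (algEquivAevalNegX (R := ℚ)) (derivative (cyclotomic (k + 3) ℚ))
      = (derivative (cyclotomic (k + 3) ℚ)).comp (-X) := by
    simp [algEquivAevalNegX, algEquivOfCompEqX, comp_eq_aeval]
  have h5 := (MulEquiv.irreducible_iff (algEquivAevalNegX (R := ℚ))).2 h1
  rw [h4] at h5
  have h6 : derivative (-X : ℚ[X]) = -1 := by simp
  rw [h6, neg_one_mul]
  exact (Associated.irreducible_iff (Associated.neg_right (Associated.refl _))).1 h5

end Pool.Agent.Results.MP_734b60_nt.PrimeCase
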